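import Pool.Agent.Q238.FP.Final

/-!
# Fan-planar multigraphs without homotopic parallel edges have at most `5n - 10` edges
-/

set_option autoImplicit false

namespace Pool.Agent.Results.MP_7b591c_co.UpperBound

open Pool.Agent.Q238.FP

/-- Every simple fan-planar drawing of a loopless multigraph with `n ≥ 3` vertices, in which
parallel edges are pairwise non-homotopic, has at most `5n - 10` edges. -/
theorem result (V E F : Type) [Fintype V] [Fintype E] [Finite F] (G : Drawing V E F)
    (hloop : G.Loopless) (hsimple : G.Simple) (hfan : G.FanPlanar) (hhom : G.NonHomotopic)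
    (hn : 3 ≤ Fintype.card V) : Fintype.card E ≤ 5 * Fintype.card V - 10 := by
  have := G.card_edges_le hloop hsimple hfan hhom hn
  omega

end Pool.Agent.Results.MP_7b591c_co.UpperBound
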